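import Pool.Agent.H685R2.Poly.Raw

/-!
The learner as a function on lists of numbers, and the proof that it is computable in polynomial
time.
-/

open Pool.Agent.H685R2.Poly

namespace Pool.Agent.H657R2

/-! ### Coding of strings -/

/-- the memory string of a list of numbers -/
def encL (l : List ℕ) : List Bool := l.flatMap fun k => List.replicate k true ++ [false]

/-- one step of the decoding of a memory string -/
def decStep (b : ℕ × List ℕ) (a : Bool) : ℕ × List ℕ :=
  if a = true then (b.1 + 1, b.2) else (0, b.1 :: b.2)

/-- decoding of a memory string -/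
def decL (w : List Bool) : List ℕ := (w.foldl decStep (0, [])).2.reverse

lemma foldl_decStep_replicate (k a : ℕ) (l : List ℕ) :
    (List.replicate k true).foldl decStep (a, l) = (a + k, l) := by
  induction k generalizing a with
  | zero => rfl
  | succ k ih =>
    rw [List.replicate_succ, List.foldl_cons]
    have : decStep (a, l) true = (a + 1, l) := rfl
    rw [this, ih]
    congr 1
    omega

lemma foldl_decStep_encL (l acc : List ℕ) :
    (encL l).foldl decStep (0, acc) = (0, l.reverse ++ acc) := by
  induction l generalizing acc with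
  | nil => rfl
  | cons k l ih =>
    have : encL (k :: l) = List.replicate k true ++ [false] ++ encL l := rfl
    rw [this, List.foldl_append, List.foldl_append, foldl_decStep_replicate]
    have : List.foldl decStep (0 + k, acc) [false] = (0, k :: acc) := by
      simp [decStep]
    rw [this, ih]
    simp

lemma decL_encL (l : List ℕ) : decL (encL l) = l := by
  unfold decL
  rw [foldl_decStep_encL]
  simp

lemma PF_encL {γ : Type} [DEnc γ] {l : γ → List ℕ} (hl : PF l) : PF (fun c => encL (l c)) := by
  unfold encL
  exact PF.flatMap (f := fun p : γ × ℕ => List.replicate p.2 true ++ [false]) hl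
    (PF.append (PF.replicate PF.snd' (PF.const true)) (PF.const [false]))

lemma dsize_decStep (w : List Bool) (b : ℕ × List ℕ) :
    dsize (w.foldl decStep b) ≤ dsize b + 2 * w.length := by
  induction w generalizing b with
  | nil => simp
  | cons a w ih =>
    rw [List.foldl_cons, List.length_cons]
    have h1 := ih (decStep b a)
    have h2 : dsize (decStep b a) ≤ dsize b + 2 := by
      unfold decStep
      split_ifs with h
      · rw [dsize_pair, dsize_pair, dsize_nat, dsize_nat]
        simp only
        omega
      · rw [dsize_pair, dsize_pair, dsize_cons, dsize_nat, dsize_nat]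
        simp only
        omega
    omega

lemma PF_decL {γ : Type} [DEnc γ] {l : γ → List Bool} (hl : PF l) :
    PF (fun c => decL (l c)) := by
  obtain ⟨r, hr⟩ := hl.size
  have h1 : PF (fun p : γ × ((ℕ × List ℕ) × Bool) => decStep p.2.1 p.2.2) :=
    PF.ite (PF.snd PF.snd') (PF.pair (PF.succ (PF.fst (PF.fst PF.snd')))
      (PF.snd (PF.fst PF.snd')))
      (PF.pair (PF.const 0) (PF.cons (PF.fst (PF.fst PF.snd')) (PF.snd (PF.fst PF.snd'))))
  unfold decL
  refine PF.reverse (PF.snd (PF.foldl (f := fun p : γ × ((ℕ × List ℕ) × Bool) =>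
    decStep p.2.1 p.2.2) hl (PF.const (0, [])) h1 ⟨2 * r + 3, ?_⟩))
  intro c l1 l2 h
  have h2 := dsize_decStep l1 (0, [])
  have h3 : dsize ((0, []) : ℕ × List ℕ) = 3 := rfl
  have h4 := length_le_dsize (l c)
  have h5 := hr c
  have h6 : l1.length ≤ (l c).length := by rw [h, List.length_append]; omega
  simp only [Polynomial.eval_add, Polynomial.eval_mul, Polynomial.eval_ofNat]
  rw [h3] at h2
  exact h2.trans (by omega)

/-- self-delimiting pairing of two strings: every bit of `x` is preceded by `1`, then comes `0`,
then `m` -/
def pr (x m : List Bool) : List Bool := x.flatMap (fun b => [true, b]) ++ false :: m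

/-- one step of the decoding of a pair -/
def unStep (s : (Bool × Bool) × (List Bool × List Bool)) (c : Bool) :
    (Bool × Bool) × (List Bool × List Bool) :=
  if s.1.1 = true then (s.1, (s.2.1, c :: s.2.2))
  else if s.1.2 = true then ((false, false), (c :: s.2.1, s.2.2))
  else if c = true then ((false, true), s.2)
  else ((true, false), s.2)

def unpr (w : List Bool) : List Bool × List Bool :=
  let s := w.foldl unStep ((false, false), ([], []))
  (s.2.1.reverse, s.2.2.reverse)

lemma foldl_unStep_snd (m : List Bool) (b : Bool) (x a : List Bool) :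
    m.foldl unStep ((true, b), (x, a)) = ((true, b), (x, m.reverse ++ a)) := by
  induction m generalizing a with
  | nil => rfl
  | cons c m ih =>
    rw [List.foldl_cons]
    have : unStep ((true, b), (x, a)) c = ((true, b), (x, c :: a)) := rfl
    rw [this, ih]
    simp

lemma foldl_unStep_fst (x a b : List Bool) :
    (x.flatMap (fun b => [true, b])).foldl unStep ((false, false), (a, b)) =
      ((false, false), (x.reverse ++ a, b)) := by
  induction x generalizing a with
  | nil => rfl
  | cons c x ih =>
    rw [List.flatMap_cons, List.foldl_append]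
    have : List.foldl unStep ((false, false), (a, b)) [true, c] =
        ((false, false), (c :: a, b)) := rfl
    rw [this, ih]
    simp

lemma unpr_pr (x m : List Bool) : unpr (pr x m) = (x, m) := by
  unfold unpr pr
  rw [List.foldl_append, foldl_unStep_fst, List.foldl_cons]
  have : unStep ((false, false), (x.reverse ++ [], [])) false =
      ((true, false), (x.reverse ++ [], [])) := rfl
  rw [this, foldl_unStep_snd]
  simp

lemma dsize_unStep (w : List Bool) (b : (Bool × Bool) × (List Bool × List Bool)) :
    dsize (w.foldl unStep b) ≤ dsize b + 4 * w.length + 4 := by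
  have key : ∀ (w : List Bool) (b : (Bool × Bool) × (List Bool × List Bool)),
      dsize (w.foldl unStep b).2 ≤ dsize b.2 + 4 * w.length := by
    intro w
    induction w with
    | nil => intro b; simp
    | cons a w ih =>
      intro b
      rw [List.foldl_cons, List.length_cons]
      have h1 := ih (unStep b a)
      have h2 : dsize (unStep b a).2 ≤ dsize b.2 + 4 := by
        unfold unStep
        have := dsize_bool a
        split_ifs with h h h
        · simp only [dsize_pair, dsize_cons]; omega
        · simp only [dsize_pair, dsize_cons]; omega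
        · simp
        · simp
      omega
  have h1 := key w b
  have h2 : ∀ t : Bool × Bool, dsize t ≤ 7 := by
    intro t
    rw [dsize_pair]
    have := dsize_bool t.1
    have := dsize_bool t.2
    omega
  have h3 := h2 (w.foldl unStep b).1
  have h4 : 3 ≤ dsize b.1 := by
    rw [dsize_pair]
    have := dsize_pos b.1.1
    have := dsize_pos b.1.2
    omega
  have e1 := dsize_pair (w.foldl unStep b)
  have e2 := dsize_pair b
  omega

lemma PF_unpr {γ : Type} [DEnc γ] {l : γ → List Bool} (hl : PF l) :
    PF (fun c => unpr (l c)) := by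
  obtain ⟨r, hr⟩ := hl.size
  have h1 : PF (fun p : γ × (((Bool × Bool) × (List Bool × List Bool)) × Bool) =>
      unStep p.2.1 p.2.2) := by
    unfold unStep
    have hs : PF (fun p : γ × (((Bool × Bool) × (List Bool × List Bool)) × Bool) => p.2.1) :=
      PF.fst PF.snd'
    have hc : PF (fun p : γ × (((Bool × Bool) × (List Bool × List Bool)) × Bool) => p.2.2) :=
      PF.snd PF.snd'
    exact PF.ite (PF.fst (PF.fst hs))
      (PF.pair (PF.fst hs) (PF.pair (PF.fst (PF.snd hs)) (PF.cons hc (PF.snd (PF.snd hs)))))
      (PF.ite (PF.snd (PF.fst hs))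
        (PF.pair (PF.const (false, false))
          (PF.pair (PF.cons hc (PF.fst (PF.snd hs))) (PF.snd (PF.snd hs))))
        (PF.ite hc (PF.pair (PF.const (false, true)) (PF.snd hs))
          (PF.pair (PF.const (true, false)) (PF.snd hs))))
  unfold unpr
  have h2 := PF.foldl (f := fun p : γ × (((Bool × Bool) × (List Bool × List Bool)) × Bool) =>
      unStep p.2.1 p.2.2) hl (PF.const ((false, false), ([], []))) h1 ⟨4 * r + 11, by
    intro c l1 l2 h
    have h2 := dsize_unStep l1 ((false, false), ([], []))
    have h3 : dsize (((false, false), ([], [])) : (Bool × Bool) × (List Bool × List Bool)) = 7 :=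
      rfl
    have h4 := length_le_dsize (l c)
    have h5 := hr c
    have h6 : l1.length ≤ (l c).length := by rw [h, List.length_append]; omega
    simp only [Polynomial.eval_add, Polynomial.eval_mul, Polynomial.eval_ofNat]
    rw [h3] at h2
    exact h2.trans (by omega)⟩
  exact PF.pair (PF.reverse (PF.fst (PF.snd h2))) (PF.reverse (PF.snd (PF.snd h2)))

/-! ### The learner -/

/-- the features of an example: its bits, their negations, and the constant `1` -/
def ext (x : List Bool) : List Bool := x ++ x.map (fun b => !b) ++ [true]

/-- `⌊√n⌋ + 1` -/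
def sq (n : ℕ) : ℕ :=
  ((List.range n).filter (fun i => decide ((i + 1) * (i + 1) ≤ n))).length + 1

/-- the number of alive true literals -/
def evH (N : ℕ) (X : List Bool) (l : List ℕ) : ℕ :=
  ((List.range N).map (fun j => if (X.getD j false && decide (0 < l.getD j 0)) = true
    then 1 else 0)).sum

/-- the total of the entries, starting at `o`, of the bias and the alive true literals -/
def evS (N : ℕ) (X : List Bool) (l : List ℕ) (o : ℕ) : ℕ :=
  l.getD (o + N) 0 + ((List.range N).map (fun j =>
    if (X.getD j false && decide (0 < l.getD j 0)) = true then l.getD (o + j) 0 else 0)).sum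

/-- are there many alive true literals? -/
def heavy (x : List Bool) (l : List ℕ) : Bool :=
  decide (sq x.length < evH (x.length + x.length) (ext x) l)

/-- the prediction -/
def pred (x : List Bool) (l : List ℕ) : Bool :=
  heavy x l ||
    decide (evS (x.length + x.length) (ext x) l
        ((x.length + x.length + 1) + (x.length + x.length + 1)) ≤
      evS (x.length + x.length) (ext x) l (x.length + x.length + 1))

/-- the state at the beginning of a phase -/
def initL (n : ℕ) : List ℕ :=
  List.replicate (n + n) (16 * (sq n * sq n)) ++ [96 * (sq n * (sq n * sq n))]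

/-- the update of the state in a phase, after a mistake -/
def stepL (x : List Bool) (l : List ℕ) (y : Bool) : List ℕ :=
  (List.range (x.length + x.length + 1)).map (fun j => l.getD j 0 -
      (if ((ext x).getD j false && (decide (j = x.length + x.length) || (!y && heavy x l))) = true
        then 1 else 0)) ++
    ((List.range (x.length + x.length + 1)).map (fun j =>
        l.getD (x.length + x.length + 1 + j) 0 +
        (if ((ext x).getD j false && y) = true then 1 else 0)) ++
      (List.range (x.length + x.length + 1)).map (fun j =>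
        l.getD ((x.length + x.length + 1) + (x.length + x.length + 1) + j) 0 +
        (if ((ext x).getD j false && (!y && !(heavy x l))) = true then 1 else 0)))

/-- the update of the state -/
def updL (x : List Bool) (l : List ℕ) (y : Bool) : List ℕ :=
  if (bif y then pred x l else !(pred x l)) = true then l
  else if decide (l.getD (x.length + x.length) 0 = 0) = true then initL x.length
  else stepL x l y

section

variable {γ : Type} [DEnc γ] {x : γ → List Bool} {l : γ → List ℕ} {y : γ → Bool} {N o : γ → ℕ}

lemma PF_ext (hx : PF x) : PF (fun c => ext (x c)) :=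
  PF.append (PF.append hx (PF.map (f := fun p : γ × Bool => !p.2) hx (PF.not PF.snd')))
    (PF.const [true])

lemma PF_sq (hN : PF N) : PF (fun c => sq (N c)) := by
  unfold sq
  exact PF.succ (PF.length (PF.filter (f := fun p : γ × ℕ =>
    decide ((p.2 + 1) * (p.2 + 1) ≤ N p.1)) (PF.range hN)
    (PF.le (PF.mul (PF.succ PF.snd') (PF.succ PF.snd')) (PF.comp hN PF.fst'))))

lemma PF_alive {X : γ → List Bool} (hX : PF X) (hl : PF l) :
    PF (fun p : γ × ℕ => (X p.1).getD p.2 false && decide (0 < (l p.1).getD p.2 0)) :=
  PF.and (PF.getD PF.snd' (PF.comp hX PF.fst') (PF.const false))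
    (PF.lt (PF.const 0) (PF.getD PF.snd' (PF.comp hl PF.fst') (PF.const 0)))

lemma PF_evH {X : γ → List Bool} (hN : PF N) (hX : PF X) (hl : PF l) :
    PF (fun c => evH (N c) (X c) (l c)) :=
  PF.sum (PF.map (f := fun p : γ × ℕ =>
    if ((X p.1).getD p.2 false && decide (0 < (l p.1).getD p.2 0)) = true then 1 else 0)
    (PF.range hN) (PF.ite (PF_alive hX hl) (PF.const 1) (PF.const 0)))

lemma PF_evS {X : γ → List Bool} (hN : PF N) (hX : PF X) (hl : PF l) (ho : PF o) :
    PF (fun c => evS (N c) (X c) (l c) (o c)) :=
  PF.add (PF.getD (PF.add ho hN) hl (PF.const 0)) (PF.sum (PF.map (f := fun p : γ × ℕ =>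
    if ((X p.1).getD p.2 false && decide (0 < (l p.1).getD p.2 0)) = true
      then (l p.1).getD (o p.1 + p.2) 0 else 0)
    (PF.range hN) (PF.ite (PF_alive hX hl)
      (PF.getD (PF.add (PF.comp ho PF.fst') PF.snd') (PF.comp hl PF.fst') (PF.const 0))
      (PF.const 0))))

lemma PF_N (hx : PF x) : PF (fun c => (x c).length + (x c).length) :=
  PF.add (PF.length hx) (PF.length hx)

lemma PF_heavy (hx : PF x) (hl : PF l) : PF (fun c => heavy (x c) (l c)) :=
  PF.lt (PF_sq (PF.length hx)) (PF_evH (PF_N hx) (PF_ext hx) hl)

lemma PF_pred (hx : PF x) (hl : PF l) : PF (fun c => pred (x c) (l c)) :=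
  PF.or (PF_heavy hx hl) (PF.le
    (PF_evS (PF_N hx) (PF_ext hx) hl (PF.add (PF.succ (PF_N hx)) (PF.succ (PF_N hx))))
    (PF_evS (PF_N hx) (PF_ext hx) hl (PF.succ (PF_N hx))))

lemma PF_initL (hN : PF N) : PF (fun c => initL (N c)) :=
  PF.append (PF.replicate (PF.add hN hN) (PF.mul (PF.const 16) (PF.mul (PF_sq hN) (PF_sq hN))))
    (PF.cons (PF.mul (PF.const 96) (PF.mul (PF_sq hN) (PF.mul (PF_sq hN) (PF_sq hN))))
      (PF.const []))

lemma PF_stepL (hx : PF x) (hl : PF l) (hy : PF y) :
    PF (fun c => stepL (x c) (l c) (y c)) := by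
  have hX : PF (fun p : γ × ℕ => (ext (x p.1)).getD p.2 false) :=
    PF.getD PF.snd' (PF.comp (g := fun c => ext (x c)) (PF_ext hx) PF.fst') (PF.const false)
  have hl' : PF (fun p : γ × ℕ => l p.1) := PF.comp hl PF.fst'
  have hy' : PF (fun p : γ × ℕ => y p.1) := PF.comp hy PF.fst'
  have hN : PF (fun p : γ × ℕ => (x p.1).length + (x p.1).length) := PF.comp (PF_N hx) PF.fst'
  have hH : PF (fun p : γ × ℕ => heavy (x p.1) (l p.1)) := PF.comp (PF_heavy hx hl) PF.fst'
  have hr : PF (fun c => List.range ((x c).length + (x c).length + 1)) :=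
    PF.range (PF.succ (PF_N hx))
  exact PF.append (PF.map hr (PF.sub (PF.getD PF.snd' hl' (PF.const 0))
      (PF.ite (PF.and hX (PF.or (PF.natEq PF.snd' hN) (PF.and (PF.not hy') hH)))
        (PF.const 1) (PF.const 0))))
    (PF.append (PF.map hr (PF.add (PF.getD (PF.add (PF.succ hN) PF.snd') hl' (PF.const 0))
      (PF.ite (PF.and hX hy') (PF.const 1) (PF.const 0))))
      (PF.map hr (PF.add (PF.getD (PF.add (PF.add (PF.succ hN) (PF.succ hN)) PF.snd') hl'
        (PF.const 0))
        (PF.ite (PF.and hX (PF.and (PF.not hy') (PF.not hH))) (PF.const 1) (PF.const 0)))))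

lemma PF_updL (hx : PF x) (hl : PF l) (hy : PF y) :
    PF (fun c => updL (x c) (l c) (y c)) :=
  PF.ite (PF.cond hy (PF_pred hx hl) (PF.not (PF_pred hx hl))) hl
    (PF.ite (PF.natEq (PF.getD (PF_N hx) hl (PF.const 0)) (PF.const 0))
      (PF_initL (PF.length hx)) (PF_stepL hx hl hy))

end

/-! ### The learner on memory strings -/

def predM (m x : List Bool) : Bool := pred x (decL m)

def updM (m x : List Bool) (y : Bool) : List Bool := encL (updL x (decL m) y)

theorem predM_polyTime : Nonempty (Turing.TM2ComputableInPolyTime
    (fun a : List Bool × List Bool => pr a.2 a.1) (fun b : Bool => [b])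
    (fun a => predM a.1 a.2)) := by
  have h : PF (fun w : List Bool => [pred (unpr w).1 (decL (unpr w).2)]) :=
    PF.cons (PF_pred (PF.fst (PF_unpr PF.id')) (PF_decL (PF.snd (PF_unpr PF.id')))) (PF.const [])
  refine PF.tm_of h fun a => ?_
  simp only [unpr_pr]
  rfl

theorem updM_polyTime : Nonempty (Turing.TM2ComputableInPolyTime
    (fun a : List Bool × List Bool × Bool => a.2.2 :: pr a.2.1 a.1) (id : List Bool → List Bool)
    (fun a => updM a.1 a.2.1 a.2.2)) := by
  have h2 : PF (fun w : List Bool × (Bool × List Bool) =>
      encL (updL (unpr w.2.2).1 (decL (unpr w.2.2).2) w.2.1)) :=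
    PF_encL (PF_updL (PF.fst (PF_unpr (PF.snd PF.snd'))) (PF_decL (PF.snd (PF_unpr
      (PF.snd PF.snd')))) (PF.fst PF.snd'))
  have h : PF (fun w : List Bool => match w with
    | [] => []
    | y :: t => encL (updL (unpr t).1 (decL (unpr t).2) y)) :=
    PF.congr (PF.listCase PF.id' (PF.const []) h2) fun w => by cases w <;> rfl
  refine PF.tm_of h fun a => ?_
  simp only [unpr_pr]
  rfl

end Pool.Agent.H657R2
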