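import Mathlib

/-!
The potential function analysis of one phase of the learner (abstract form).
-/

open Finset

namespace Pool.Agent.H657R2

/-- the invariants of a phase. `κ` are the tokens, `w` the weights (index `N` is the bias), `R` the
target set of literals, `m` the number of noisy trials, `Mh` and `Ml` the numbers of heavy and
light mistakes in the phase -/
structure PInv (N s K : ℕ) (R : Finset ℕ) (κ : ℕ → ℕ) (w : ℕ → ℤ) (m Mh Ml : ℕ) : Prop where
  c1 : ∀ j ∈ R, K ≤ κ j + m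
  c2 : ∑ j ∈ range N, κ j + (s + 1) * Mh ≤ N * K
  c3 : m < K → (Ml : ℤ) ≤ 2 * ∑ j ∈ R, w j - w N + 2 * s * m
  c4 : ∑ j ∈ range N, (if 0 < κ j then w j ^ 2 else 0) + w N ^ 2 ≤ (s + 1) * Ml

lemma PInv.mono {N s K : ℕ} {R : Finset ℕ} {κ : ℕ → ℕ} {w : ℕ → ℤ} {m m' Mh Ml : ℕ}
    (h : PInv N s K R κ w m Mh Ml) (hm : m ≤ m') : PInv N s K R κ w m' Mh Ml where
  c1 := fun j hj => (h.c1 j hj).trans (by omega)
  c2 := h.c2
  c3 := fun h' => by
    have := h.c3 (by omega)
    have h2 : (2 * s * m : ℤ) ≤ 2 * s * m' := by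
      have : (m : ℤ) ≤ m' := by exact_mod_cast hm
      have : (0 : ℤ) ≤ 2 * s := by positivity
      nlinarith
    linarith
  c4 := h.c4

/-- a heavy mistake -/
lemma PInv.heavy {N s K : ℕ} {R : Finset ℕ} {κ : ℕ → ℕ} {w : ℕ → ℤ} {m Mh Ml : ℕ}
    (h : PInv N s K R κ w m Mh Ml) (X : ℕ → Bool) (hR : R ⊆ range N) (m' : ℕ) (hm : m ≤ m')
    (hnoise : (∃ j ∈ R, X j = true) → m + 1 ≤ m')
    (hH : s + 1 ≤ ∑ j ∈ range N, (if X j = true ∧ 0 < κ j then 1 else 0))
    (κ' : ℕ → ℕ) (hκ : ∀ j < N, κ' j = κ j - (if X j = true then 1 else 0)) (w' : ℕ → ℤ)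
    (hw : ∀ j ≤ N, w' j = w j) : PInv N s K R κ' w' m' (Mh + 1) Ml where
  c1 := by
    intro j hj
    have h1 := h.c1 j hj
    rw [hκ j (mem_range.1 (hR hj))]
    by_cases hX : X j = true
    · have := hnoise ⟨j, hj, hX⟩
      rw [if_pos hX]
      omega
    · rw [if_neg hX]
      omega
  c2 := by
    have e : ∑ j ∈ range N, κ' j + ∑ j ∈ range N, (if X j = true ∧ 0 < κ j then 1 else 0) =
        ∑ j ∈ range N, κ j := by
      rw [← sum_add_distrib]
      refine sum_congr rfl fun j hj => ?_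
      rw [hκ j (mem_range.1 hj)]
      by_cases hX : X j = true <;> by_cases hk : 0 < κ j <;> simp [hX, hk] <;> omega
    have := h.c2
    have : (s + 1) * (Mh + 1) = (s + 1) * Mh + (s + 1) := by ring
    omega
  c3 := by
    intro hm'
    have h1 := h.mono hm
    have h2 := h1.c3 hm'
    have e : ∑ j ∈ R, w' j = ∑ j ∈ R, w j :=
      sum_congr rfl fun j hj => hw j (mem_range.1 (hR hj)).le
    rw [e, hw N le_rfl]
    exact h2
  c4 := by
    refine le_trans ?_ h.c4
    rw [hw N le_rfl]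
    gcongr with j hj
    rw [hκ j (mem_range.1 hj), hw j (mem_range.1 hj).le]
    by_cases hk : 0 < κ j
    · rw [if_pos hk]
      split_ifs <;> nlinarith [sq_nonneg (w j)]
    · rw [if_neg hk]
      have : κ j = 0 := by omega
      rw [this]
      simp

/-- a light mistake; `σ = 1` for a positive example and `σ = -1` for a negative one -/
lemma PInv.light {N s K : ℕ} {R : Finset ℕ} {κ : ℕ → ℕ} {w : ℕ → ℤ} {m Mh Ml : ℕ}
    (h : PInv N s K R κ w m Mh Ml) (X : ℕ → Bool) (hR : R ⊆ range N) (hs : 1 ≤ s) (σ : ℤ)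
    (hσ : σ = 1 ∨ σ = -1)
    (hV : σ * (w N + ∑ j ∈ range N, (if X j = true ∧ 0 < κ j then w j else 0)) ≤ 0)
    (hH : ∑ j ∈ range N, (if X j = true ∧ 0 < κ j then 1 else 0) ≤ s)
    (m' : ℕ) (hm : m ≤ m')
    (hn1 : σ = 1 → (¬ ∃ j ∈ R, X j = true) → m + 1 ≤ m')
    (hn0 : σ = -1 → (∃ j ∈ R, X j = true) → m + 1 ≤ m')
    (κ' : ℕ → ℕ) (hκ : ∀ j < N, κ' j = κ j) (w' : ℕ → ℤ)
    (hw : ∀ j < N, w' j = w j + (if X j = true then σ else 0)) (hwN : w' N = w N + σ) :
    PInv N s K R κ' w' m' Mh (Ml + 1) where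
  c1 := fun j hj => by
    rw [hκ j (mem_range.1 (hR hj))]
    exact (h.c1 j hj).trans (by omega)
  c2 := by
    rw [sum_congr rfl fun j hj => hκ j (mem_range.1 hj)]
    exact h.c2
  c3 := by
    intro hm'
    have h2 := h.c3 (by omega)
    set T := ∑ j ∈ R, (if X j = true then 1 else 0 : ℕ) with hT
    have e : ∑ j ∈ R, w' j = ∑ j ∈ R, w j + σ * T := by
      rw [hT, Nat.cast_sum, mul_sum, ← sum_add_distrib]
      refine sum_congr rfl fun j hj => ?_
      rw [hw j (mem_range.1 (hR hj))]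
      by_cases hX : X j = true <;> simp [hX]
    have hTs : T ≤ s := by
      refine le_trans ?_ hH
      have : T = ∑ j ∈ R, (if X j = true ∧ 0 < κ j then 1 else 0 : ℕ) := by
        refine sum_congr rfl fun j hj => ?_
        have := h.c1 j hj
        have : 0 < κ j := by omega
        simp [this]
      rw [this]
      exact sum_le_sum_of_subset hR
    have hT0 : (¬ ∃ j ∈ R, X j = true) → T = 0 := by
      intro h0
      push Not at h0
      rw [hT]
      exact sum_eq_zero fun j hj => if_neg (h0 j hj)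
    have hT1 : (∃ j ∈ R, X j = true) → 1 ≤ T := by
      rintro ⟨j, hj, hX⟩
      have h3 : (if X j = true then 1 else 0 : ℕ) ≤ T :=
        single_le_sum (f := fun j => (if X j = true then 1 else 0 : ℕ)) (by simp) hj
      rwa [if_pos hX] at h3
    rw [e, hwN]
    push_cast
    have hm2 : (2 * s * m : ℤ) ≤ 2 * s * m' := by
      have : (m : ℤ) ≤ m' := by exact_mod_cast hm
      have : (0 : ℤ) ≤ 2 * s := by positivity
      nlinarith
    have hm3 : m + 1 ≤ m' → (2 * s * m + 2 * s : ℤ) ≤ 2 * s * m' := by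
      intro h3
      have : (m : ℤ) + 1 ≤ m' := by exact_mod_cast h3
      have : (0 : ℤ) ≤ 2 * s := by positivity
      nlinarith
    have hs' : (1 : ℤ) ≤ s := by exact_mod_cast hs
    have hTs' : (T : ℤ) ≤ s := by exact_mod_cast hTs
    by_cases hex : ∃ j ∈ R, X j = true
    · have h4 : (1 : ℤ) ≤ T := by exact_mod_cast hT1 hex
      rcases hσ with rfl | rfl
      · linarith
      · have := hm3 (hn0 rfl hex)
        linarith
    · have h4 : (T : ℤ) = 0 := by exact_mod_cast hT0 hex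
      rw [h4]
      rcases hσ with rfl | rfl
      · have := hm3 (hn1 rfl hex)
        linarith
      · linarith
  c4 := by
    have e : ∑ j ∈ range N, (if 0 < κ' j then w' j ^ 2 else 0) =
        ∑ j ∈ range N, (if 0 < κ j then w j ^ 2 else 0) +
        (2 * σ * ∑ j ∈ range N, (if X j = true ∧ 0 < κ j then w j else 0) +
          ((∑ j ∈ range N, (if X j = true ∧ 0 < κ j then 1 else 0) : ℕ) : ℤ)) := by
      rw [Nat.cast_sum, mul_sum, ← sum_add_distrib, ← sum_add_distrib]
      refine sum_congr rfl fun j hj => ?_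
      rw [hκ j (mem_range.1 hj), hw j (mem_range.1 hj)]
      by_cases hX : X j = true <;> by_cases hk : 0 < κ j
      · simp only [hX, hk, if_true, and_self]
        rcases hσ with rfl | rfl <;> push_cast <;> ring
      · simp [hX, hk]
      · simp [hX, hk]
      · simp [hX, hk]
    rw [e, hwN]
    have h1 := h.c4
    have h2 : ((∑ j ∈ range N, (if X j = true ∧ 0 < κ j then 1 else 0) : ℕ) : ℤ) ≤ s := by
      exact_mod_cast hH
    have h3 : σ ^ 2 = 1 := by rcases hσ with rfl | rfl <;> norm_num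
    push_cast
    push_cast at h2
    nlinarith

lemma cs_aux (a b c S : ℤ) (hc : 0 ≤ c) (hS : 0 ≤ S) (h : a ^ 2 ≤ c * S) :
    (a - b) ^ 2 ≤ (c + 1) * (S + b ^ 2) := by
  have h1 : (2 * a * b) ^ 2 ≤ (S + c * b ^ 2) ^ 2 := by
    have h2 : (2 * a * b) ^ 2 ≤ 4 * (c * S) * b ^ 2 := by nlinarith [sq_nonneg b]
    nlinarith [sq_nonneg (S - c * b ^ 2)]
  have h2 : 0 ≤ S + c * b ^ 2 := by positivity
  have h3 := abs_le_of_sq_le_sq' h1 h2
  nlinarith [h3.1]

/-- A phase with less than `K` noisy trials has less than `96 s ^ 3` mistakes. -/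
lemma PInv.bound {n s : ℕ} {R : Finset ℕ} {κ : ℕ → ℕ} {w : ℕ → ℤ} {m Mh Ml : ℕ}
    (hs : n + 1 ≤ s * s)
    (h : PInv (n + n) s (16 * (s * s)) R κ w m Mh Ml) (hR : R ⊆ range (n + n))
    (hm : m < 16 * (s * s)) : Mh + Ml < 96 * (s * (s * s)) := by
  have hs1 : 1 ≤ s := by
    rcases Nat.eq_zero_or_pos s with h0 | h0
    · subst h0; omega
    · exact h0
  have hMh : Mh < 32 * (s * (s * s)) := by
    have h2 : (s + 1) * Mh ≤ (n + n) * (16 * (s * s)) := by
      have := h.c2
      omega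
    by_contra hcon
    push Not at hcon
    have h3 : (s + 1) * (32 * (s * (s * s))) ≤ (n + n) * (16 * (s * s)) :=
      (Nat.mul_le_mul_left _ hcon).trans h2
    have h4 : (n + n) * (16 * (s * s)) < (s + 1) * (32 * (s * (s * s))) := by
      have h5 : n < s * s := by omega
      have h6 : 0 < s * s := Nat.mul_pos hs1 hs1
      have h7 : n * (s * s) < (s * s) * (s * s) := Nat.mul_lt_mul_of_pos_right h5 h6
      nlinarith
    omega
  have hMl : Ml ≤ 64 * (s * (s * s)) := by
    by_contra hcon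
    push Not at hcon
    have h3 := h.c3 hm
    have h4 : (2 * ∑ j ∈ R, w j - w (n + n)) ^ 2 ≤
        (8 * (s : ℤ) ^ 2) * ((s + 1) * Ml) := by
      have hSnn : (0 : ℤ) ≤ ∑ j ∈ R, w j ^ 2 := sum_nonneg fun j _ => sq_nonneg _
      have h5 : (2 * ∑ j ∈ R, w j) ^ 2 ≤ (4 * (R.card : ℤ)) * ∑ j ∈ R, w j ^ 2 := by
        have := sq_sum_le_card_mul_sum_sq (s := R) (f := w)
        nlinarith
      have h6 := cs_aux _ (w (n + n)) _ _ (by positivity) hSnn h5
      refine h6.trans ?_
      have h7 : ∑ j ∈ R, w j ^ 2 ≤ ∑ j ∈ range (n + n), (if 0 < κ j then w j ^ 2 else 0) := by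
        have : ∑ j ∈ R, w j ^ 2 = ∑ j ∈ R, (if 0 < κ j then w j ^ 2 else 0) := by
          refine sum_congr rfl fun j hj => ?_
          have := h.c1 j hj
          rw [if_pos (by omega)]
        rw [this]
        refine sum_le_sum_of_subset_of_nonneg hR fun j _ _ => ?_
        split_ifs
        · positivity
        · exact le_rfl
      have h8 := h.c4
      have h9 : (R.card : ℤ) ≤ n + n := by
        have := card_le_card hR
        rw [card_range] at this
        exact_mod_cast this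
      have h10 : ((n : ℤ)) + 1 ≤ s ^ 2 := by
        have : ((n + 1 : ℕ) : ℤ) ≤ ((s * s : ℕ) : ℤ) := by exact_mod_cast hs
        push_cast at this
        nlinarith
      have h11 : (4 * (R.card : ℤ) + 1) ≤ 8 * (s : ℤ) ^ 2 := by linarith
      have h12 : ∑ j ∈ R, w j ^ 2 + w (n + n) ^ 2 ≤ (s + 1) * Ml := by linarith
      have h13 : 0 ≤ ∑ j ∈ R, w j ^ 2 + w (n + n) ^ 2 := by positivity
      exact mul_le_mul h11 h12 h13 (by positivity)
    have h5 : (2 * s * m : ℤ) ≤ 32 * (s : ℤ) ^ 3 := by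
      have : (m : ℤ) ≤ 16 * (s * s) := by exact_mod_cast hm.le
      have : (0 : ℤ) ≤ s := by positivity
      nlinarith
    have h6 : (64 : ℤ) * s ^ 3 < Ml := by
      have : ((64 * (s * (s * s)) : ℕ) : ℤ) < Ml := by exact_mod_cast hcon
      push_cast at this
      nlinarith
    set Φ := 2 * ∑ j ∈ R, w j - w (n + n) with hΦ
    have h7 : (Ml : ℤ) ≤ 2 * Φ := by linarith
    have h8 : (Ml : ℤ) ^ 2 ≤ 4 * Φ ^ 2 := by
      have : (0 : ℤ) ≤ Ml := by positivity
      nlinarith
    have h9 : (s : ℤ) + 1 ≤ 2 * s := by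
      have : (1 : ℤ) ≤ s := by exact_mod_cast hs1
      linarith
    have h10 : (8 * (s : ℤ) ^ 2) * ((s + 1) * Ml) ≤ 16 * s ^ 3 * Ml := by
      have h11 : ((s : ℤ) + 1) * Ml ≤ 2 * s * Ml := by
        have : (0 : ℤ) ≤ Ml := by positivity
        nlinarith
      have : (8 * (s : ℤ) ^ 2) * ((s + 1) * Ml) ≤ (8 * (s : ℤ) ^ 2) * (2 * s * Ml) :=
        mul_le_mul_of_nonneg_left h11 (by positivity)
      nlinarith
    have h11 : (0 : ℤ) < Ml := by
      have : (0 : ℤ) ≤ 64 * s ^ 3 := by positivity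
      linarith
    nlinarith
  omega

end Pool.Agent.H657R2
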