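import Pool.Agent.H657R2.Run

/-!
The memory of the learner is polynomially bounded.
-/

namespace Pool.Agent.H657R2

/-- bounds on the entries of the state -/
def MInv (n : ℕ) (l : List ℕ) : Prop :=
  l.length ≤ 3 * (n + n + 1) ∧
  (∀ j < n + n + 1, kap l j ≤ 96 * (sq n * (sq n * sq n))) ∧
  (∀ j < n + n + 1, l.getD (n + n + 1 + j) 0 + kap l (n + n) ≤ 96 * (sq n * (sq n * sq n))) ∧
  (∀ j < n + n + 1, l.getD (n + n + 1 + (n + n + 1) + j) 0 + kap l (n + n) ≤
    96 * (sq n * (sq n * sq n)))

lemma MInv.nil (n : ℕ) : MInv n [] := by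
  refine ⟨by simp, ?_, ?_, ?_⟩ <;> intro j _ <;> simp [kap]

lemma MInv.getD {n : ℕ} {l : List ℕ} (h : MInv n l) (i : ℕ) :
    l.getD i 0 ≤ 96 * (sq n * (sq n * sq n)) := by
  obtain ⟨h1, h2, h3, h4⟩ := h
  by_cases hi : i < n + n + 1
  · exact h2 i hi
  · by_cases hi2 : i < n + n + 1 + (n + n + 1)
    · have := h3 (i - (n + n + 1)) (by omega)
      rw [show n + n + 1 + (i - (n + n + 1)) = i by omega] at this
      omega
    · by_cases hi3 : i < n + n + 1 + (n + n + 1) + (n + n + 1)
      · have := h4 (i - (n + n + 1 + (n + n + 1))) (by omega)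
        rw [show n + n + 1 + (n + n + 1) + (i - (n + n + 1 + (n + n + 1))) = i by omega] at this
        omega
      · rw [List.getD_eq_getElem?_getD, List.getElem?_eq_none (by omega)]
        simp

lemma MInv.init (n : ℕ) : MInv n (initL n) := by
  refine ⟨?_, ?_, ?_, ?_⟩
  · unfold initL
    simp
  · intro j hj
    by_cases hj' : j < n + n
    · rw [initL_kap n j hj']
      have := one_le_sq n
      have h2 : sq n * sq n ≤ sq n * (sq n * sq n) := by
        calc sq n * sq n = 1 * (sq n * sq n) := by ring
          _ ≤ sq n * (sq n * sq n) := Nat.mul_le_mul_right _ this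
      omega
    · have : j = n + n := by omega
      rw [this, initL_bias]
  · intro j hj
    rw [initL_rest, initL_bias]
    exact (Nat.zero_add _).le
  · intro j hj
    rw [show n + n + 1 + (n + n + 1) + j = n + n + 1 + (n + n + 1 + j) by ring, initL_rest,
      initL_bias]
    exact (Nat.zero_add _).le

lemma MInv.step {n : ℕ} {l : List ℕ} (h : MInv n l) (x : Fin n → Bool) (y : Bool) :
    MInv n (updL (List.ofFn x) l y) := by
  have hlen : (List.ofFn x).length = n := List.length_ofFn
  unfold updL
  split_ifs with h1 h2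
  · exact h
  · rw [hlen]
    exact MInv.init n
  · have h0 : kap l (n + n) ≠ 0 := by
      rw [decide_eq_true_iff, hlen] at h2
      exact h2
    have hXN : (ext (List.ofFn x)).getD (n + n) false = true := ext_bias x
    have hbias : kap (stepL (List.ofFn x) l y) (n + n) + 1 = kap l (n + n) := by
      have := kap_stepL (List.ofFn x) l y (n + n) (by rw [hlen]; omega)
      rw [hlen] at this
      rw [this, if_pos (by rw [hXN]; simp)]
      omega
    refine ⟨?_, ?_, ?_, ?_⟩
    · rw [stepL_length, hlen]
    · intro j hj
      rw [kap_stepL (List.ofFn x) l y j (by rw [hlen]; exact hj)]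
      exact (Nat.sub_le _ _).trans (h.2.1 j hj)
    · intro j hj
      have := p_stepL (List.ofFn x) l y j (by rw [hlen]; exact hj)
      rw [hlen] at this
      rw [this]
      have := h.2.2.1 j hj
      split_ifs <;> omega
    · intro j hj
      have := q_stepL (List.ofFn x) l y j (by rw [hlen]; exact hj)
      rw [hlen] at this
      rw [this]
      have := h.2.2.2 j hj
      split_ifs <;> omega

lemma encL_length (l : List ℕ) (B : ℕ) (h : ∀ a ∈ l, a ≤ B) :
    (encL l).length ≤ l.length * (B + 1) := by
  induction l with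
  | nil => simp [encL]
  | cons a l ih =>
    have e : encL (a :: l) = List.replicate a true ++ [false] ++ encL l := rfl
    rw [e, List.length_append, List.length_append, List.length_replicate,
      List.length_cons (a := a), Nat.succ_mul]
    have h1 := ih fun b hb => h b (List.mem_cons_of_mem _ hb)
    have h2 := h a List.mem_cons_self
    simp only [List.length_cons, List.length_nil]
    omega

lemma MInv.encL_length {n : ℕ} {l : List ℕ} (h : MInv n l) :
    (encL l).length ≤ 3 * (2 * n + 1) * (96 * (n + 1) ^ 3 + 1) := by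
  have h1 := H657R2.encL_length l (96 * (sq n * (sq n * sq n))) (by
    intro a ha
    obtain ⟨i, hi, rfl⟩ := List.getElem_of_mem ha
    have := h.getD i
    rw [List.getD_eq_getElem?_getD, List.getElem?_eq_getElem hi] at this
    exact this)
  have h2 : sq n ≤ n + 1 := by
    rw [sq_eq]
    have := Nat.sqrt_le_self n
    omega
  refine h1.trans (Nat.mul_le_mul ?_ ?_)
  · have := h.1
    omega
  · have : sq n * (sq n * sq n) ≤ (n + 1) ^ 3 := by
      calc sq n * (sq n * sq n) = sq n ^ 3 := by ring
        _ ≤ (n + 1) ^ 3 := Nat.pow_le_pow_left h2 3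
    omega

end Pool.Agent.H657R2
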