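import Pool.Agent.H657R2.Alg
import Pool.Agent.H657R2.Ana

/-!
The global invariant of the learner.
-/

open Finset

namespace Pool.Agent.H657R2

lemma sum_map_range (N : ℕ) (f : ℕ → ℕ) :
    ((List.range N).map f).sum = ∑ j ∈ range N, f j := by
  induction N with
  | zero => rfl
  | succ N ih => rw [List.range_succ, List.map_append, List.sum_append, ih, sum_range_succ]; simp

lemma sq_eq (n : ℕ) : sq n = Nat.sqrt n + 1 := by
  unfold sq
  congr 1
  have : (List.range n).filter (fun i => decide ((i + 1) * (i + 1) ≤ n)) =
      (List.range n).filter (fun i => decide (i < Nat.sqrt n)) := by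
    apply List.filter_congr
    intro i _
    rw [decide_eq_decide]
    rw [← Nat.le_sqrt]
    rfl
  rw [this]
  have h2 : ∀ n k : ℕ, ((List.range n).filter (fun i => decide (i < k))).length = min n k := by
    intro n k
    induction n with
    | zero => simp
    | succ n ih =>
      rw [List.range_succ, List.filter_append, List.length_append, ih]
      by_cases h : n < k
      · simp [h]; omega
      · simp [h]; omega
  rw [h2]
  exact min_eq_right (Nat.sqrt_le_self n)

lemma succ_le_sq (n : ℕ) : n + 1 ≤ sq n * sq n := by
  rw [sq_eq]
  exact Nat.succ_le_succ_sqrt n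

lemma one_le_sq (n : ℕ) : 1 ≤ sq n := by rw [sq_eq]; omega

lemma getD_map_range (D : ℕ) (f : ℕ → ℕ) (t : List ℕ) (j : ℕ) (hj : j < D) :
    ((List.range D).map f ++ t).getD j 0 = f j := by
  rw [List.getD_eq_getElem?_getD, List.getElem?_append_left (by simpa using hj)]
  simp [hj]

lemma getD_append_map (D : ℕ) (f : ℕ → ℕ) (t : List ℕ) (j : ℕ) :
    ((List.range D).map f ++ t).getD (D + j) 0 = t.getD j 0 := by
  rw [List.getD_eq_getElem?_getD, List.getElem?_append_right (by simp)]
  simp [List.getD_eq_getElem?_getD]

section ext

variable {n : ℕ} (x : Fin n → Bool)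

lemma ext_pos (i : Fin n) : (ext (List.ofFn x)).getD i false = x i := by
  unfold ext
  rw [List.append_assoc, List.getD_eq_getElem?_getD,
    List.getElem?_append_left (by simp)]
  simp

lemma ext_neg (i : Fin n) : (ext (List.ofFn x)).getD (n + i) false = !(x i) := by
  unfold ext
  rw [List.append_assoc, List.getD_eq_getElem?_getD,
    List.getElem?_append_right (by simp), List.getElem?_append_left (by simp)]
  simp

lemma ext_bias : (ext (List.ofFn x)).getD (n + n) false = true := by
  unfold ext
  rw [List.getD_eq_getElem?_getD, List.getElem?_append_right (by simp)]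
  simp

end ext

/-- the index of a literal -/
def litIdx {n : ℕ} (a : Fin n × Bool) : ℕ := if a.2 then a.1 else n + a.1

lemma litIdx_lt {n : ℕ} (a : Fin n × Bool) : litIdx a < n + n := by
  unfold litIdx
  have := a.1.2
  split_ifs <;> omega

lemma ext_litIdx {n : ℕ} (x : Fin n → Bool) (a : Fin n × Bool) :
    ((ext (List.ofFn x)).getD (litIdx a) false = true) ↔ x a.1 = a.2 := by
  obtain ⟨i, b⟩ := a
  cases b
  · have : litIdx (i, false) = n + i := by simp [litIdx]
    rw [this, ext_neg]
    simp
  · have : litIdx (i, true) = i := by simp [litIdx]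
    rw [this, ext_pos]

/-- the disjunction of a set of literals -/
def disj {n : ℕ} (R : Finset (Fin n × Bool)) (x : Fin n → Bool) : Bool :=
  decide (∃ a ∈ R, x a.1 = a.2)

lemma disj_iff {n : ℕ} (R : Finset (Fin n × Bool)) (x : Fin n → Bool) :
    disj R x = true ↔ ∃ j ∈ R.image litIdx, (ext (List.ofFn x)).getD j false = true := by
  unfold disj
  rw [decide_eq_true_iff]
  constructor
  · rintro ⟨a, ha, h⟩
    exact ⟨litIdx a, mem_image_of_mem _ ha, (ext_litIdx x a).2 h⟩
  · rintro ⟨j, hj, h⟩
    obtain ⟨a, ha, rfl⟩ := mem_image.1 hj
    exact ⟨a, ha, (ext_litIdx x a).1 h⟩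

/-- tokens -/
def kap (l : List ℕ) (j : ℕ) : ℕ := l.getD j 0

/-- weights -/
def wt (D : ℕ) (l : List ℕ) (j : ℕ) : ℤ := (l.getD (D + j) 0 : ℤ) - l.getD (D + D + j) 0

lemma evH_eq (N : ℕ) (X : List Bool) (l : List ℕ) :
    evH N X l = ∑ j ∈ range N, (if X.getD j false = true ∧ 0 < kap l j then 1 else 0) := by
  unfold evH
  rw [sum_map_range]
  refine sum_congr rfl fun j _ => ?_
  simp [kap]

lemma evS_sub (N : ℕ) (X : List Bool) (l : List ℕ) :
    (evS N X l (N + 1) : ℤ) - evS N X l ((N + 1) + (N + 1)) =
      wt (N + 1) l N +
        ∑ j ∈ range N, (if X.getD j false = true ∧ 0 < kap l j then wt (N + 1) l j else 0) := by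
  unfold evS
  rw [sum_map_range, sum_map_range]
  push_cast
  unfold wt
  have : ∀ j, ((if (X.getD j false && decide (0 < l.getD j 0)) = true
      then l.getD (N + 1 + j) 0 else 0 : ℕ) : ℤ) -
      ((if (X.getD j false && decide (0 < l.getD j 0)) = true
      then l.getD (N + 1 + (N + 1) + j) 0 else 0 : ℕ) : ℤ) =
      (if X.getD j false = true ∧ 0 < kap l j then
        (l.getD (N + 1 + j) 0 : ℤ) - l.getD (N + 1 + (N + 1) + j) 0 else 0) := by
    intro j
    unfold kap
    generalize X.getD j false = b
    generalize l.getD j 0 = k
    by_cases h1 : b = true <;> by_cases h2 : 0 < k <;> simp [h1, h2]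
  rw [← sum_congr rfl fun j _ => this j, sum_sub_distrib]
  push_cast
  ring

/-! the three parts of the new state -/

section step

variable (x : List Bool) (l : List ℕ) (y : Bool)

lemma kap_stepL (j : ℕ) (hj : j < x.length + x.length + 1) :
    kap (stepL x l y) j = kap l j -
      (if ((ext x).getD j false && (decide (j = x.length + x.length) || (!y && heavy x l))) = true
        then 1 else 0) := by
  unfold kap stepL
  rw [getD_map_range _ _ _ _ hj]

lemma p_stepL (j : ℕ) (hj : j < x.length + x.length + 1) :
    (stepL x l y).getD (x.length + x.length + 1 + j) 0 =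
      l.getD (x.length + x.length + 1 + j) 0 +
        (if ((ext x).getD j false && y) = true then 1 else 0) := by
  unfold stepL
  rw [getD_append_map, getD_map_range _ _ _ _ hj]

lemma q_stepL (j : ℕ) (hj : j < x.length + x.length + 1) :
    (stepL x l y).getD (x.length + x.length + 1 + (x.length + x.length + 1) + j) 0 =
      l.getD ((x.length + x.length + 1) + (x.length + x.length + 1) + j) 0 +
        (if ((ext x).getD j false && (!y && !(heavy x l))) = true then 1 else 0) := by
  unfold stepL
  rw [Nat.add_assoc (x.length + x.length + 1) (x.length + x.length + 1) j, getD_append_map,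
    getD_append_map]
  have := getD_map_range (x.length + x.length + 1) (fun j =>
        l.getD ((x.length + x.length + 1) + (x.length + x.length + 1) + j) 0 +
        (if ((ext x).getD j false && (!y && !(heavy x l))) = true then 1 else 0)) [] j hj
  rw [List.append_nil] at this
  rw [this, Nat.add_assoc (x.length + x.length + 1) (x.length + x.length + 1) j]

lemma stepL_length : (stepL x l y).length = 3 * (x.length + x.length + 1) := by
  unfold stepL
  simp
  omega

end step

lemma initL_kap (n j : ℕ) (hj : j < n + n) : kap (initL n) j = 16 * (sq n * sq n) := by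
  unfold kap initL
  rw [List.getD_eq_getElem?_getD, List.getElem?_append_left (by simpa using hj)]
  simp [hj]

lemma initL_bias (n : ℕ) : kap (initL n) (n + n) = 96 * (sq n * (sq n * sq n)) := by
  unfold kap initL
  rw [List.getD_eq_getElem?_getD, List.getElem?_append_right (by simp)]
  simp

lemma initL_rest (n j : ℕ) : (initL n).getD (n + n + 1 + j) 0 = 0 := by
  unfold initL
  rw [List.getD_eq_getElem?_getD, List.getElem?_append_right (by simp; omega)]
  have : n + n + 1 + j - (List.replicate (n + n) (16 * (sq n * sq n))).length = j + 1 := by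
    rw [List.length_replicate]; omega
  rw [this]
  rfl

/-- The global invariant. `mt` is the total number of noisy trials, `M` the total number of
mistakes. -/
def GInv (n : ℕ) (R : Finset ℕ) (l : List ℕ) (mt M : ℕ) : Prop :=
  (kap l (n + n) = 0 ∧ 16 * (sq n * sq n) * M ≤ (96 * (sq n * (sq n * sq n)) + 1) * mt) ∨
  ∃ m Mh Ml, PInv (n + n) (sq n) (16 * (sq n * sq n)) R (kap l) (wt (n + n + 1) l) m Mh Ml ∧
    kap l (n + n) + Mh + Ml = 96 * (sq n * (sq n * sq n)) ∧ m ≤ mt ∧
    16 * (sq n * sq n) * M ≤ (96 * (sq n * (sq n * sq n)) + 1) * (mt - m) +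
      16 * (sq n * sq n) * (Mh + Ml + 1)

lemma GInv.final {n : ℕ} {R : Finset ℕ} {l : List ℕ} {mt M : ℕ} (h : GInv n R l mt M) :
    16 * (sq n * sq n) * M ≤ (96 * (sq n * (sq n * sq n)) + 1) * mt +
      16 * (sq n * sq n) * (96 * (sq n * (sq n * sq n)) + 1) := by
  rcases h with ⟨_, h⟩ | ⟨m, Mh, Ml, _, h2, h3, h4⟩
  · exact h.trans (Nat.le_add_right _ _)
  · refine h4.trans ?_
    gcongr
    · omega
    · omega

/-- the state is exhausted: a new phase can be paid for -/
lemma GInv.exhausted {n : ℕ} {R : Finset ℕ} (hR : R ⊆ range (n + n)) {l : List ℕ} {mt M : ℕ}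
    (h : GInv n R l mt M) (h0 : kap l (n + n) = 0) :
    16 * (sq n * sq n) * M ≤ (96 * (sq n * (sq n * sq n)) + 1) * mt := by
  rcases h with ⟨_, h⟩ | ⟨m, Mh, Ml, h1, h2, h3, h4⟩
  · exact h
  · have h5 : 16 * (sq n * sq n) ≤ m := by
      by_contra hcon
      push Not at hcon
      have := h1.bound (succ_le_sq n) hR hcon
      omega
    rw [h0, zero_add] at h2
    rw [h2] at h4
    have h6 : 16 * (sq n * sq n) * (96 * (sq n * (sq n * sq n)) + 1) ≤
        (96 * (sq n * (sq n * sq n)) + 1) * m := by
      rw [Nat.mul_comm]
      exact Nat.mul_le_mul_left _ h5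
    have h7 : (96 * (sq n * (sq n * sq n)) + 1) * mt =
        (96 * (sq n * (sq n * sq n)) + 1) * (mt - m) + (96 * (sq n * (sq n * sq n)) + 1) * m := by
      rw [← Nat.mul_add]
      congr 1
      omega
    omega

lemma GInv.mono {n : ℕ} {R : Finset ℕ} {l : List ℕ} {mt mt' M : ℕ} (h : GInv n R l mt M)
    (hm : mt ≤ mt') : GInv n R l mt' M := by
  rcases h with ⟨h1, h⟩ | ⟨m, Mh, Ml, h1, h2, h3, h4⟩
  · exact Or.inl ⟨h1, h.trans (Nat.mul_le_mul_left _ hm)⟩
  · refine Or.inr ⟨m, Mh, Ml, h1, h2, h3.trans hm, h4.trans ?_⟩
    gcongr

lemma GInv.init {n : ℕ} {R : Finset ℕ} (hR : R ⊆ range (n + n)) {mt M : ℕ}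
    (h : 16 * (sq n * sq n) * M ≤ (96 * (sq n * (sq n * sq n)) + 1) * mt) :
    GInv n R (initL n) mt (M + 1) := by
  refine Or.inr ⟨0, 0, 0, ⟨?_, ?_, ?_, ?_⟩, ?_, Nat.zero_le _, ?_⟩
  · intro j hj
    rw [initL_kap n j (mem_range.1 (hR hj))]
    omega
  · rw [sum_congr rfl fun j hj => initL_kap n j (mem_range.1 hj)]
    simp
  · intro _
    have h0 : ∀ j, wt (n + n + 1) (initL n) j = 0 := by
      intro j
      unfold wt
      rw [initL_rest, show n + n + 1 + (n + n + 1) + j = n + n + 1 + (n + n + 1 + j) by ring,
        initL_rest]
      simp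
    simp [h0]
  · have h0 : ∀ j, wt (n + n + 1) (initL n) j = 0 := by
      intro j
      unfold wt
      rw [initL_rest, show n + n + 1 + (n + n + 1) + j = n + n + 1 + (n + n + 1 + j) by ring,
        initL_rest]
      simp
    simp [h0]
  · rw [initL_bias]
    rfl
  · simp only [Nat.sub_zero, Nat.add_zero, Nat.zero_add, Nat.mul_one]
    rw [Nat.mul_succ]
    omega

theorem GInv.step {n : ℕ} (R : Finset (Fin n × Bool)) {l : List ℕ} {mt M : ℕ}
    (h : GInv n (R.image litIdx) l mt M) (x : Fin n → Bool) (y : Bool) :
    GInv n (R.image litIdx) (updL (List.ofFn x) l y) (mt + if disj R x = y then 0 else 1)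
      (M + if pred (List.ofFn x) l = y then 0 else 1) := by
  have hR : R.image litIdx ⊆ range (n + n) := by
    intro j hj
    obtain ⟨a, -, rfl⟩ := mem_image.1 hj
    exact mem_range.2 (litIdx_lt a)
  have hlen : (List.ofFn x).length = n := List.length_ofFn
  unfold updL
  by_cases hp : pred (List.ofFn x) l = y
  · have : (bif y then pred (List.ofFn x) l else !(pred (List.ofFn x) l)) = true := by
      rw [hp]; cases y <;> rfl
    rw [if_pos this, if_pos hp]
    exact h.mono (Nat.le_add_right _ _)
  · have : ¬ (bif y then pred (List.ofFn x) l else !(pred (List.ofFn x) l)) = true := by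
      intro h'
      apply hp
      cases y
      · simpa using h'
      · simpa using h'
    rw [if_neg this, if_neg hp]
    by_cases h0 : kap l (n + n) = 0
    · have : decide (l.getD ((List.ofFn x).length + (List.ofFn x).length) 0 = 0) = true := by
        rw [decide_eq_true_iff, hlen]
        exact h0
      rw [if_pos this, hlen]
      exact GInv.init hR ((h.exhausted hR h0).trans (Nat.mul_le_mul_left _ (Nat.le_add_right _ _)))
    · have : ¬ decide (l.getD ((List.ofFn x).length + (List.ofFn x).length) 0 = 0) = true := by
        rw [decide_eq_true_iff, hlen]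
        exact h0
      rw [if_neg this]
      rcases h with ⟨h1, _⟩ | ⟨m, Mh, Ml, h1, h2, h3, h4⟩
      · exact absurd h1 h0
      set X : ℕ → Bool := fun j => (ext (List.ofFn x)).getD j false with hX
      have hXN : X (n + n) = true := ext_bias x
      have hXN' : (ext (List.ofFn x)).getD (n + n) false = true := ext_bias x
      set ν := (if disj R x = y then 0 else 1 : ℕ) with hν
      have hd := disj_iff R x
      -- the new state
      have hkap : ∀ j < n + n + 1, kap (stepL (List.ofFn x) l y) j = kap l j -
          (if (X j && (decide (j = n + n) || (!y && heavy (List.ofFn x) l))) = true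
            then 1 else 0) := by
        intro j hj
        have := kap_stepL (List.ofFn x) l y j (by rw [hlen]; exact hj)
        rw [hlen] at this
        exact this
      have hwt : ∀ j < n + n + 1, wt (n + n + 1) (stepL (List.ofFn x) l y) j =
          wt (n + n + 1) l j + ((if (X j && y) = true then 1 else 0) -
            (if (X j && (!y && !(heavy (List.ofFn x) l))) = true then 1 else 0)) := by
        intro j hj
        have e1 := p_stepL (List.ofFn x) l y j (by rw [hlen]; exact hj)
        have e2 := q_stepL (List.ofFn x) l y j (by rw [hlen]; exact hj)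
        rw [hlen] at e1 e2
        unfold wt
        rw [e1, e2]
        push_cast
        ring
      have hbias : kap (stepL (List.ofFn x) l y) (n + n) + 1 = kap l (n + n) := by
        rw [hkap _ (by omega), if_pos (by rw [hXN]; simp)]
        omega
      have hevH : evH (n + n) (ext (List.ofFn x)) l =
          ∑ j ∈ range (n + n), (if X j = true ∧ 0 < kap l j then 1 else 0) := evH_eq _ _ _
      have hheavy : heavy (List.ofFn x) l = true ↔
          sq n + 1 ≤ ∑ j ∈ range (n + n), (if X j = true ∧ 0 < kap l j then 1 else 0) := by
        unfold heavy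
        rw [decide_eq_true_iff, hlen, hevH]
        rfl
      -- the bound after the step
      have hfin : ∀ Mh' Ml', Mh' + Ml' = Mh + Ml + 1 →
          PInv (n + n) (sq n) (16 * (sq n * sq n)) (R.image litIdx)
            (kap (stepL (List.ofFn x) l y)) (wt (n + n + 1) (stepL (List.ofFn x) l y))
            (m + ν) Mh' Ml' →
          GInv n (R.image litIdx) (stepL (List.ofFn x) l y) (mt + ν) (M + 1) := by
        intro Mh' Ml' hM hP
        refine Or.inr ⟨m + ν, Mh', Ml', hP, by omega, by omega, ?_⟩
        rw [Nat.add_sub_add_right, hM, Nat.mul_succ _ M, Nat.mul_succ _ (Mh + Ml + 1)]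
        omega
      by_cases hhv : heavy (List.ofFn x) l = true
      · -- heavy mistake
        have hpred : pred (List.ofFn x) l = true := by
          unfold pred
          rw [hhv]
          rfl
        have hy : y = false := by
          cases y
          · rfl
          · exact absurd hpred hp
        subst hy
        refine hfin (Mh + 1) Ml (by omega) ?_
        refine h1.heavy X hR (m + ν) (Nat.le_add_right _ _) ?_ (hheavy.1 hhv) _ ?_ _ ?_
        · intro hex
          have hdt : disj R x = true := hd.2 hex
          rw [hν, if_neg (by rw [hdt]; simp)]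
        · intro j hj
          rw [hkap j (by omega)]
          have : decide (j = n + n) = false := by
            rw [decide_eq_false_iff_not]; omega
          rw [this, hhv]
          simp
        · intro j hj
          rw [hwt j (by omega), hhv]
          simp
      · -- light mistake
        have hhv' : heavy (List.ofFn x) l = false := by simpa using hhv
        have hV := evS_sub (n + n) (ext (List.ofFn x)) l
        have hVd : pred (List.ofFn x) l = true ↔ (0 : ℤ) ≤ wt (n + n + 1) l (n + n) +
            ∑ j ∈ range (n + n), (if X j = true ∧ 0 < kap l j then wt (n + n + 1) l j else 0) := by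
          rw [← hV]
          unfold pred
          rw [hhv', hlen]
          simp only [Bool.false_or, decide_eq_true_iff]
          omega
        refine hfin Mh (Ml + 1) (by omega) ?_
        have hH : ∑ j ∈ range (n + n), (if X j = true ∧ 0 < kap l j then 1 else 0) ≤ sq n := by
          by_contra hcon
          exact hhv (hheavy.2 (by omega))
        cases y
        · have hpt : pred (List.ofFn x) l = true := by simpa using hp
          refine h1.light X hR (one_le_sq n) (-1) (Or.inr rfl) ?_ hH (m + ν)
            (Nat.le_add_right _ _) (fun h => absurd h (by norm_num)) ?_ _ ?_ _ ?_ ?_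
          · have := hVd.1 hpt
            linarith
          · intro _ hex
            have hdt : disj R x = true := hd.2 hex
            rw [hν, if_neg (by rw [hdt]; simp)]
          · intro j hj
            rw [hkap j (by omega)]
            have : decide (j = n + n) = false := by
              rw [decide_eq_false_iff_not]; omega
            rw [this, hhv']
            simp
          · intro j hj
            rw [hwt j (by omega), hhv']
            by_cases hXj : X j = true <;> simp [hXj]
          · rw [hwt _ (by omega), hhv', hXN]
            simp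
        · have hpt : ¬ pred (List.ofFn x) l = true := hp
          refine h1.light X hR (one_le_sq n) 1 (Or.inl rfl) ?_ hH (m + ν)
            (Nat.le_add_right _ _) ?_ (fun h => absurd h (by norm_num)) _ ?_ _ ?_ ?_
          · have := (not_iff_not.2 hVd).1 hpt
            linarith
          · intro _ hex
            have hdt : ¬ disj R x = true := fun h' => hex (hd.1 h')
            rw [hν, if_neg hdt]
          · intro j hj
            rw [hkap j (by omega)]
            have : decide (j = n + n) = false := by
              rw [decide_eq_false_iff_not]; omega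
            rw [this]
            simp
          · intro j hj
            rw [hwt j (by omega)]
            by_cases hXj : X j = true <;> simp [hXj]
          · rw [hwt _ (by omega), hXN]
            simp

end Pool.Agent.H657R2
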